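import Pool.Agent.Run7.h566.FD.Dense

/-!
Furstenberg's orbit closures: in every bilinear and multilinear family over an irrational number almost
all members have orbits which are dense at small scales, in all bases simultaneously.
-/

set_option autoImplicit false

open Finset
open scoped Classical

namespace Pool.Agent.Results.MP_c9a594_an.DenseInAllBases

/-- the closure of the orbit of `z` modulo one under the multiplication by `b`, without the first `n`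
points -/
def orbitClosure (b : ℕ) (z : ℝ) (n : ℕ) : Set ℝ :=
  closure {y | ∃ j : ℕ, n ≤ j ∧ y = Int.fract (z * (b : ℝ) ^ j)}

/-- `X` meets every closed interval of the length `ρ` in `[0, 1]` -/
def DenseAt (ρ : ℝ) (X : Set ℝ) : Prop := ∀ u : ℝ, 0 ≤ u → u + ρ ≤ 1 → ∃ y ∈ X, u ≤ y ∧ y ≤ u + ρ

/-- for all bases `b ≤ B` the orbit closures of `z`, also without arbitrarily many first points, are
dense at the scale `ρ` -/
def Dense (ρ : ℝ) (B : ℕ) (z : ℝ) : Prop :=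
  ∀ b : ℕ, 2 ≤ b → b ≤ B → ∀ n : ℕ, DenseAt ρ (orbitClosure b z n)

/-- the function `f` of `n` natural numbers does not depend on the `j`-th of them -/
def Free {n : ℕ} (j : Fin n) (f : (Fin n → ℕ) → ℝ) : Prop :=
  ∀ a a' : Fin n → ℕ, (∀ i, i ≠ j → a i = a' i) → f a = f a'

/-- the points with the coordinates `0 ≤ a_i < M` -/
def box (n M : ℕ) : Finset (Fin n → ℕ) := Fintype.piFinset fun _ => range M

lemma dense_of (ρ : ℝ) (B : ℕ) (z : ℝ) (h : Pool.Agent.Run7.h566.FD.DnAll ρ B z) : Dense ρ B z := by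
  intro b hb hB n u hu hu1
  obtain ⟨q, hq, hn⟩ := (h b hb hB u hu hu1).exists_gt n
  exact ⟨Int.fract (z * (b : ℝ) ^ q), subset_closure ⟨q, hn.le, rfl⟩, hq.1, hq.2.le⟩

/-- the constants for all bases -/
lemma consts (B : ℕ) (κ : ℝ) (hκ : 0 < κ) (D : ℕ → ℝ) (hD : ∀ b, 0 ≤ D b) :
    ∃ c C : ℝ, 0 < c ∧ 0 < C ∧ ∀ (ι : Type) (M : ℕ), 2 ≤ M → ∀ (S : Finset ι) (z : ι → ℝ) (P : ℝ),
      0 ≤ P →
      (∀ b : ℕ, 2 ≤ b → ∀ q0 : ℕ, ∃ q, q0 ≤ q ∧ ∀ s t : ℝ, 0 ≤ s → s < t → t ≤ 1 →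
        ((S.filter fun i => s ≤ Int.fract (z i * (b : ℝ) ^ q) ∧ Int.fract (z i * (b : ℝ) ^ q) < t).card : ℝ) ≤
          P * ((t - s) + D b * (M : ℝ) ^ (-κ))) →
      ((S.filter fun i => ¬ Dense (C / (Real.log M) ^ (1 / 4 : ℝ)) B (z i)).card : ℝ) ≤
        C * Real.exp (-(c * Real.sqrt (Real.log M))) * P := by
  have h0 : ∀ b : ℕ, ∃ c C : ℝ, 0 < c ∧ 0 < C ∧ (2 ≤ b → ∀ (ι : Type) (M : ℕ), 2 ≤ M →
      ∀ (S : Finset ι) (z : ι → ℝ) (P D : ℝ), 0 ≤ P → 0 ≤ D →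
      (∀ q0 : ℕ, ∃ q, q0 ≤ q ∧ ∀ s t : ℝ, 0 ≤ s → s < t → t ≤ 1 →
        ((S.filter fun i => s ≤ Int.fract (z i * (b : ℝ) ^ q) ∧ Int.fract (z i * (b : ℝ) ^ q) < t).card : ℝ) ≤
          P * ((t - s) + D * (M : ℝ) ^ (-κ))) →
      ((S.filter fun i => ¬ Pool.Agent.Run7.h566.FD.Dn (2 * b / (Real.log M) ^ (1 / 4 : ℝ)) b (z i)).card : ℝ) ≤
        C * (1 + D) * Real.exp (-(c * Real.sqrt (Real.log M))) * P) := by
    intro b
    by_cases hb : 2 ≤ b
    · obtain ⟨c, C, hc, hC, h⟩ := Pool.Agent.Run7.h566.FD.dense_fam b hb κ hκ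
      exact ⟨c, C, hc, hC, fun _ => h⟩
    · exact ⟨1, 1, one_pos, one_pos, fun hb' => absurd hb' hb⟩
  choose c C hc hC h using h0
  obtain ⟨c0, hc00, hc0⟩ : ∃ c0 : ℝ, 0 < c0 ∧ ∀ b, b ≤ B → c0 ≤ c b := by
    obtain ⟨b0, hb0, hmin⟩ := (range (B + 1)).exists_min_image c ⟨0, by simp⟩
    exact ⟨c b0, hc b0, fun b hb => hmin b (by rw [mem_range]; omega)⟩
  have hsum : 0 ≤ ∑ b ∈ Icc 2 B, C b * (1 + D b) := sum_nonneg fun b _ => by
    have := (hC b).le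
    have := hD b
    positivity
  refine ⟨c0, 1 + 2 * B + ∑ b ∈ Icc 2 B, C b * (1 + D b), hc00, by positivity,
    fun ι M hM S z P hP hq => ?_⟩
  have hMR : (2 : ℝ) ≤ M := by exact_mod_cast hM
  have hL0 : 0 < Real.log M := Real.log_pos (by linarith)
  have hr0 : 0 < (Real.log M) ^ (1 / 4 : ℝ) := Real.rpow_pos_of_pos hL0 _
  have h1 := Pool.Agent.Run7.h566.FD.bases S z P (1 + 2 * B + ∑ b ∈ Icc 2 B, C b * (1 + D b)) hP
    (Real.log M) ((1 + 2 * B + ∑ b ∈ Icc 2 B, C b * (1 + D b)) / (Real.log M) ^ (1 / 4 : ℝ)) B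
    c (fun b => C b * (1 + D b)) c0 hc0
    (fun b => by
      have := (hC b).le
      have := hD b
      positivity)
    (by
      have : (0 : ℝ) ≤ B := by positivity
      linarith)
    (fun b hb => by
      have hb' : (b : ℝ) ≤ B := by exact_mod_cast hb
      apply div_le_div_of_nonneg_right _ hr0.le
      linarith)
    (fun b hb1 _ => h b hb1 ι M hM S z P (D b) hP (hD b) (hq b hb1))
  refine le_trans (Nat.cast_le.2 (card_le_card fun i hi => ?_)) h1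
  rw [mem_filter] at hi ⊢
  exact ⟨hi.1, fun hall => hi.2 (dense_of _ B (z i) hall)⟩

/-- Let `B ≥ 2` be a bound for the bases.

(1) For `0 < δ ≤ 1` there are `c, C > 0` such that for EVERY irrational `α`, all `M ≥ 2`, all sets
`X`, `Y` of natural numbers less than `M` with `|X| |Y| ≥ M ^ (1 + δ)` and all real functions `x, y`:
for all but at most `C exp (- c √(log M)) |X| |Y|` of the pairs `(m, n)` in `X × Y`, the closures of the
orbits of `m n α + x_m + y_n` modulo one under the multiplication by ALL `b = 2, …, B` meet every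
interval of the length `C (log M) ^ (-1/4)`, also without any finite number of their points.

(2) For every `n` there are `c, C > 0` such that for EVERY irrational `α`, all `M ≥ 2` and all real
functions `x_0, …, x_n` of `n + 1` natural numbers, `x_j` not depending on the `j`-th of them, the same
holds for the numbers `a_0 ⋯ a_n α + x_0(a) + ⋯ + x_n(a)`, for all but at most
`C exp (- c √(log M)) M ^ (n + 1)` of the points `a` of `[0, M) ^ (n + 1)`. -/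
theorem result (B : ℕ) :
    (∀ δ : ℝ, 0 < δ → δ ≤ 1 → ∃ c C : ℝ, 0 < c ∧ 0 < C ∧
      ∀ α : ℝ, Irrational α → ∀ M : ℕ, 2 ≤ M → ∀ X Y : Finset ℕ, X ⊆ range M → Y ⊆ range M →
      (M : ℝ) ^ (1 + δ) ≤ (X.card : ℝ) * Y.card → ∀ x y : ℕ → ℝ,
      (((X ×ˢ Y).filter fun z : ℕ × ℕ =>
        ¬ Dense (C / (Real.log M) ^ (1 / 4 : ℝ)) B ((z.1 * z.2 : ℝ) * α + x z.1 + y z.2)).card : ℝ) ≤
        C * Real.exp (-(c * Real.sqrt (Real.log M))) * ((X.card : ℝ) * Y.card)) ∧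
    (∀ n : ℕ, ∃ c C : ℝ, 0 < c ∧ 0 < C ∧
      ∀ α : ℝ, Irrational α → ∀ M : ℕ, 2 ≤ M →
      ∀ x : Fin (n + 1) → (Fin (n + 1) → ℕ) → ℝ, (∀ j, Free j (x j)) →
      (((box (n + 1) M).filter fun a =>
        ¬ Dense (C / (Real.log M) ^ (1 / 4 : ℝ)) B ((∏ i, (a i : ℝ)) * α + ∑ j, x j a)).card : ℝ) ≤
        C * Real.exp (-(c * Real.sqrt (Real.log M))) * (M : ℝ) ^ (n + 1)) := by
  constructor
  · intro δ hδ hδ1
    have h0 : ∀ b : ℕ, ∃ D : ℝ, 0 ≤ D ∧ (2 ≤ b → ∀ α : ℝ, Irrational α → ∀ M : ℕ, 1 ≤ M → ∀ q0 : ℕ,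
        ∃ q, q0 ≤ q ∧ ∀ A B : Finset ℕ, A ⊆ range M → B ⊆ range M →
        (M : ℝ) ^ (1 + δ) ≤ (A.card : ℝ) * B.card → ∀ x y : ℕ → ℝ, ∀ s t : ℝ, 0 ≤ s → s < t → t ≤ 1 →
        |(((A ×ˢ B).filter (fun z : ℕ × ℕ =>
            s ≤ Int.fract (((z.1 * z.2 : ℝ) * α + x z.1 + y z.2) * (b : ℝ) ^ q) ∧
            Int.fract (((z.1 * z.2 : ℝ) * α + x z.1 + y z.2) * (b : ℝ) ^ q) < t)).card : ℝ) -
          (t - s) * ((A.card : ℝ) * B.card)| ≤ D * (M : ℝ) ^ (-(δ / 16)) * ((A.card : ℝ) * B.card)) := by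
      intro b
      by_cases hb : 2 ≤ b
      · obtain ⟨D, hD, h⟩ := Pool.Agent.Run7.h566.BL.place b hb δ hδ hδ1
        exact ⟨D, hD.le, fun _ => h⟩
      · exact ⟨1, zero_le_one, fun hb' => absurd hb' hb⟩
    choose D hD hpl using h0
    obtain ⟨c, C, hc, hC, h⟩ := consts B (δ / 16) (by positivity) D hD
    refine ⟨c, C, hc, hC, fun α hα M hM X Y hX hY hcard x y => ?_⟩
    refine h (ℕ × ℕ) M hM (X ×ˢ Y) (fun z => (z.1 * z.2 : ℝ) * α + x z.1 + y z.2)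
      ((X.card : ℝ) * Y.card) (by positivity) fun b hb q0 => ?_
    obtain ⟨q, hq, h1⟩ := hpl b hb α hα M (by omega) q0
    refine ⟨q, hq, fun s t hs hst ht => ?_⟩
    have h2 := (abs_le.1 (h1 X Y hX hY hcard x y s t hs hst ht)).2
    calc _ ≤ (t - s) * ((X.card : ℝ) * Y.card) +
          D b * (M : ℝ) ^ (-(δ / 16)) * ((X.card : ℝ) * Y.card) := by linarith
      _ = _ := by ring
  · intro n
    have h0 : ∀ b : ℕ, ∃ D : ℝ, 0 ≤ D ∧ (2 ≤ b → ∀ α : ℝ, Irrational α → ∀ M : ℕ, 1 ≤ M → ∀ q0 : ℕ,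
        ∃ q, q0 ≤ q ∧ ∀ x : Fin (n + 1) → (Fin (n + 1) → ℕ) → ℝ,
        (∀ j, Pool.Agent.Run7.h566.ML.Free j (x j)) →
        ∀ Ω : Fin (n + 1) → (Fin (n + 1) → ℕ) → Prop, (∀ j, Pool.Agent.Run7.h566.ML.Free j (Ω j)) →
        ∀ s t : ℝ, 0 ≤ s → s < t → t ≤ 1 →
        |(((Pool.Agent.Run7.h566.ML.pts M Ω).filter (fun a =>
            s ≤ Int.fract (Pool.Agent.Run7.h566.ML.val α x a * (b : ℝ) ^ q) ∧
            Int.fract (Pool.Agent.Run7.h566.ML.val α x a * (b : ℝ) ^ q) < t)).card : ℝ) -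
          (t - s) * (Pool.Agent.Run7.h566.ML.pts M Ω).card| ≤
          D * (M : ℝ) ^ (-(1 / 2 ^ (n + 4) : ℝ)) * (M : ℝ) ^ (n + 1)) := by
      intro b
      by_cases hb : 2 ≤ b
      · obtain ⟨D, hD, h⟩ := Pool.Agent.Run7.h566.ML.place b hb n
        exact ⟨D, hD.le, fun _ => h⟩
      · exact ⟨1, zero_le_one, fun hb' => absurd hb' hb⟩
    choose D hD hpl using h0
    obtain ⟨c, C, hc, hC, h⟩ := consts B (1 / 2 ^ (n + 4)) (by positivity) D hD
    refine ⟨c, C, hc, hC, fun α hα M hM x hx => ?_⟩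
    refine h (Fin (n + 1) → ℕ) M hM (box (n + 1) M) (fun a => (∏ i, (a i : ℝ)) * α + ∑ j, x j a)
      ((M : ℝ) ^ (n + 1)) (by positivity) fun b hb q0 => ?_
    obtain ⟨q, hq, h1⟩ := hpl b hb α hα M (by omega) q0
    refine ⟨q, hq, fun s t hs hst ht => ?_⟩
    have hpts : Pool.Agent.Run7.h566.ML.pts M (fun (_ : Fin (n + 1)) (_ : Fin (n + 1) → ℕ) => True) =
        box (n + 1) M := Pool.Agent.Run7.h566.FD.pts_all M _ fun _ _ => trivial
    have h2 := (abs_le.1 (h1 x hx (fun _ _ => True) (fun _ _ _ _ => rfl) s t hs hst ht)).2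
    rw [hpts] at h2
    have hcc : ((box (n + 1) M).card : ℝ) = (M : ℝ) ^ (n + 1) := by
      have h3 : (box (n + 1) M).card = M ^ (n + 1) := Pool.Agent.Run7.h566.ML.card_cube (n + 1) M
      rw [h3]
      push_cast
      rfl
    rw [hcc] at h2
    have h3 := sub_le_iff_le_add.1 h2
    refine h3.trans (le_of_eq ?_)
    ring

end Pool.Agent.Results.MP_c9a594_an.DenseInAllBases
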