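import Mathlib
import Pool.Agent.Run7.h103.UN.Defs

set_option autoImplicit false

/-!
# Every real number is unpredictable in one of two independent bases or is near a rational number

Let `a` and `b` be multiplicatively independent bases. For all `A`, `E`, `η > 0` there is `R` such
that for all `M ≥ R (K + 1)` and for EVERY real number `y`: in one of the two bases every automaton
with at most `K` states which reads the digits of `y` and predicts the next one makes more than
`A log (M / (K + 1))` errors among the first `M` digits, or there is a rational number `p / q` with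
`q ≤ e ^ (η M)` and `|y - p / q| ≤ (q e ^ (K + 1)) ^ (-E)`. The constant `R` does not depend on `y`.
The statement is about one scale `(M, K)` at a time, and Liouville numbers are not excluded.

More generally no real number which is not near a rational number in this sense is, up to
`e ^ (-ε M)`, the value at numbers with predictable digits in the base `b` of an integer polynomial of
degree at most `d` and with coefficients at most `e ^ (A (K + 1))`, for two different bases `b` from a
finite set of pairwise multiplicatively independent bases.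

Proof. Otherwise there is a sequence of real numbers with these properties at scales tending to
infinity. The machinery of `Pool.Agent.TH796.AL` (subspace theorem with moving forms, over the field
of germs of rational numbers of negligible height) is extended in `Pool.Agent.Run7.h103.UN` from fixed
real numbers to germs of sequences of real numbers. The residue field of the ring of bounded germs
contains two rings of represented germs, one for each base, which are linearly disjoint over the ring
of germs of bounded rational numbers. So a common element is the quotient of two germs of bounded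
rational numbers.
-/

namespace Pool.Agent.Results.MP_c9a594_an.EveryRealNumber

open Pool.Agent.Run7.h103.PF Pool.Agent.Run7.h103.UN

lemma near_add_int {E η : ℝ} {M K : ℕ} {y : ℝ} (n : ℤ) (h : NearRational E η M K y) :
    NearRational E η M K (y + n) := by
  obtain ⟨p, q, h1, h2, h3⟩ := h
  refine ⟨p + n * q, q, h1, h2, ?_⟩
  have hq : (q : ℝ) ≠ 0 := by exact_mod_cast (by omega : q ≠ 0)
  have e : y + n - ((p + n * q : ℤ) : ℝ) / q = y - p / q := by
    push_cast
    field_simp
    ring
  rw [e]
  exact h3

lemma unpredictable_mono {b : ℕ} {u : ℕ → ℤ} {x : ℝ} {M K : ℕ} {E F : ℝ} (h : F ≤ E)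
    (hx : Unpredictable b u x M K E) : Unpredictable b u x M K F :=
  fun k hk P => h.trans_lt (hx k hk P)

lemma value_one (x : ℝ) :
    value (k := 1) (d := 1) (fun e => if e = 1 then 1 else 0) (fun _ => x) = x := by
  unfold value
  rw [Finset.sum_eq_single 1]
  · simp
  · intro e _ he
    simp [he]
  · intro h
    exact absurd (Finset.mem_univ _) h

/-- the number itself -/
theorem single (F : Finset ℕ) (hF2 : ∀ b ∈ F, 2 ≤ b)
    (hF : ∀ b ∈ F, ∀ c ∈ F, b ≠ c → Independent b c) (C : ℝ) (u : ℕ → ℕ → ℤ)
    (hu : ∀ b ∈ F, SimpleWord b C (u b)) (A E η : ℝ) (hη : 0 < η) :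
    ∃ R : ℕ, ∀ M K : ℕ, R * (K + 1) ≤ M → ∀ y : ℝ, NearRational E η M K y ∨
      ∃ c : ℕ, ∀ b ∈ F, b ≠ c → Unpredictable b (u b) y M K (A * Real.log (M / (K + 1))) := by
  obtain ⟨R, hR⟩ := near_rational_all F hF2 hF (k := 1) (fun b _ => u b)
    (fun b hb _ => hu b hb) 1 |A| E (ε := 1) one_pos hη
  refine ⟨R + 1, fun M K hMK y => ?_⟩
  by_cases hnear : NearRational E η M K y
  · exact Or.inl hnear
  refine Or.inr ?_
  have hM1 : K + 1 ≤ M := le_trans (by nlinarith) hMK
  have hlog : 0 ≤ Real.log ((M : ℝ) / (K + 1)) := by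
    refine Real.log_nonneg ?_
    rw [le_div_iff₀ (by positivity), one_mul]
    exact_mod_cast hM1
  obtain ⟨c, hc⟩ := hR M K (le_trans (Nat.mul_le_mul_right _ (Nat.le_succ R)) hMK) (Int.fract y)
    (fun h => hnear (by
      have h1 := near_add_int ⌊y⌋ h
      rwa [Int.fract_add_floor] at h1))
  refine ⟨c, fun b hb hbc => ?_⟩
  by_contra hcon
  have h1 := hc b hb hbc (fun _ => Int.fract y) (fun e => if e = 1 then 1 else 0) (by
    intro i
    refine ⟨?_, fun h2 => hcon ?_⟩
    · rw [abs_of_nonneg (Int.fract_nonneg y)]
      exact (Int.fract_lt_one y).le.trans (Real.one_le_exp (by positivity))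
    · have h3 := unpredictable_mono (mul_le_mul_of_nonneg_right (le_abs_self A) hlog) h2
      rw [← Int.fract_add_floor y]
      exact (unpredictable_add_int ⌊y⌋).2 h3) (by
    intro e
    change |((if e = 1 then 1 else 0 : ℤ) : ℝ)| ≤ _
    split_ifs
    · simpa using Real.one_le_exp (by positivity : 0 ≤ |A| * ((K : ℝ) + 1))
    · simpa using (Real.exp_pos _).le)
  rw [value_one, sub_self, abs_zero] at h1
  exact absurd h1 (not_lt.2 (Real.exp_pos _).le)

/-- (1) Let `F` be a finite set of pairwise multiplicatively independent bases, and for `b` in `F` let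
`u_b` be a word of linear block complexity over `{0, ..., b - 1}`, for instance `0 0 0 ...`. For all
`A`, `E`, `η > 0` there is `R` such that for all `M`, `K` with `R (K + 1) ≤ M` and EVERY real number
`y`: there is a rational number `p / q` with `1 ≤ q ≤ e ^ (η M)` and
`|y - p / q| ≤ (q e ^ (K + 1)) ^ (-E)`, or for all `b` in `F`, with at most one exception, every
predictor with at most `K` states which reads the differences between the digits of `y` in base `b`
and the letters of `u_b` makes more than `A log (M / (K + 1))` wrong predictions among the first `M`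
places.

(2) In particular, for all `A`, `μ` and `c₀ > 0` there is `R` such that for all `M`, `K` with
`R (K + 1) ≤ M` and all real numbers `y` with `|y - p / q| ≥ c₀ q ^ (-μ)` for all integers `p` and
`q ≥ 1` the last statement holds; `R` depends only on `F`, `u`, `A`, `μ` and `c₀`.

(3) More generally, let `u_b` consist of `k` such words. For all `d`, `A`, `E`, `ε, η > 0` there is
`R` such that for all `M`, `K` with `R (K + 1) ≤ M` and every real number `y` without such an
approximation `p / q`, for all `b` in `F` with at most one exception, `y` is not within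
`e ^ (- ε M)` of a value `P (x_1, ..., x_k)`, where `P` is an integer polynomial of degree at most `d`
in each variable and with coefficients at most `e ^ (A (K + 1))`, and the `x_i` are real numbers of
absolute value at most `e ^ (A (K + 1))` with predictable digits in base `b`. -/
theorem result :
    (∀ F : Finset ℕ, (∀ b ∈ F, 2 ≤ b) → (∀ b ∈ F, ∀ c ∈ F, b ≠ c → Independent b c) →
      ∀ (C : ℝ) (u : ℕ → ℕ → ℤ), (∀ b ∈ F, SimpleWord b C (u b)) → ∀ A E η : ℝ, 0 < η →
      ∃ R : ℕ, ∀ M K : ℕ, R * (K + 1) ≤ M → ∀ y : ℝ, NearRational E η M K y ∨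
        ∃ c : ℕ, ∀ b ∈ F, b ≠ c → Unpredictable b (u b) y M K (A * Real.log (M / (K + 1)))) ∧
    (∀ F : Finset ℕ, (∀ b ∈ F, 2 ≤ b) → (∀ b ∈ F, ∀ c ∈ F, b ≠ c → Independent b c) →
      ∀ (C : ℝ) (u : ℕ → ℕ → ℤ), (∀ b ∈ F, SimpleWord b C (u b)) → ∀ A μ c₀ : ℝ, 0 < c₀ →
      ∃ R : ℕ, ∀ M K : ℕ, R * (K + 1) ≤ M → ∀ y : ℝ,
        (∀ p q : ℤ, 1 ≤ q → c₀ * (q : ℝ) ^ (-μ) ≤ |y - p / q|) →
        ∃ c : ℕ, ∀ b ∈ F, b ≠ c → Unpredictable b (u b) y M K (A * Real.log (M / (K + 1)))) ∧
    (∀ F : Finset ℕ, (∀ b ∈ F, 2 ≤ b) → (∀ b ∈ F, ∀ c ∈ F, b ≠ c → Independent b c) →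
      ∀ (k : ℕ) (C : ℝ) (u : ℕ → Fin k → ℕ → ℤ), (∀ b ∈ F, ∀ i, SimpleWord b C (u b i)) →
      ∀ (d : ℕ) (A E ε η : ℝ), 0 < ε → 0 < η →
      ∃ R : ℕ, ∀ M K : ℕ, R * (K + 1) ≤ M → ∀ y : ℝ, NearRational E η M K y ∨
        ∃ c : ℕ, ∀ b ∈ F, b ≠ c → ∀ (x : Fin k → ℝ) (a : (Fin k → Fin (d + 1)) → ℤ),
          Predictable b (u b) A M K x → SmallCoeff A K a →
          Real.exp (-(ε * M)) < |y - value a x|) := by
  refine ⟨fun F hF2 hF C u hu A E η hη => single F hF2 hF C u hu A E η hη,
    fun F hF2 hF C u hu A μ c₀ hc₀ => ?_, fun F hF2 hF k C u hu d A E ε η hε hη => ?_⟩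
  · set E : ℝ := |μ| + |Real.log c₀| + 1 with hE
    obtain ⟨R, hR⟩ := single F hF2 hF C u hu A E 1 one_pos
    refine ⟨R, fun M K hMK y hy => ?_⟩
    rcases hR M K hMK y with ⟨p, q, h1, h2, h3⟩ | h
    · exfalso
      have h4 := (hy p q h1).trans h3
      have hq1 : (1 : ℝ) ≤ q := by exact_mod_cast h1
      have hq0 : (0 : ℝ) < q := by linarith
      have hE0 : 0 < E := by positivity
      rw [Real.mul_rpow hq0.le (Real.exp_pos _).le, ← Real.exp_mul] at h4
      have h5 : (q : ℝ) ^ (-E) ≤ (q : ℝ) ^ (-μ) := by
        refine Real.rpow_le_rpow_of_exponent_le hq1 ?_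
        have := le_abs_self μ
        have := abs_nonneg (Real.log c₀)
        linarith
      have h6 : Real.exp (((K : ℝ) + 1) * -E) < c₀ := by
        rw [← Real.exp_log hc₀]
        refine Real.exp_lt_exp.2 ?_
        have g1 := neg_abs_le (Real.log c₀)
        have g2 := abs_nonneg μ
        have g3 : (0 : ℝ) ≤ K := Nat.cast_nonneg K
        nlinarith
      have h7 : 0 < (q : ℝ) ^ (-μ) := Real.rpow_pos_of_pos hq0 _
      have h8 : (q : ℝ) ^ (-E) * Real.exp (((K : ℝ) + 1) * -E) < (q : ℝ) ^ (-μ) * c₀ :=
        mul_lt_mul' h5 h6 (Real.exp_pos _).le h7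
      linarith
    · exact h
  · obtain ⟨R, hR⟩ := near_rational_all F hF2 hF u hu d A E hε hη
    refine ⟨R, fun M K hMK y => ?_⟩
    by_cases h : NearRational E η M K y
    · exact Or.inl h
    · exact Or.inr (hR M K hMK y h)

end Pool.Agent.Results.MP_c9a594_an.EveryRealNumber
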