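import Mathlib
import Pool.Agent.Run7.h103.PF.Defs
import Pool.Agent.H326R2.Pi.Top

set_option autoImplicit false

/-!
# Predicting the digits of a real number in two multiplicatively independent bases

Let `x` be an irrational number which is not a Liouville number, for instance `π`, and let `a` and
`b` be multiplicatively independent bases, for instance `2` and `10`. For every `A` there is `R` such
that for all `M ≥ R (K + 1)`, in one of the two bases every automaton with at most `K` states which
reads the digits of `x` one by one and predicts the next one makes more than `A log (M / (K + 1))`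
errors among the first `M` digits. So the number of errors in one of the two bases is superlogarithmic
as soon as `M / K` tends to infinity. The same holds for the differences between the digits and
arbitrary words of linear block complexity, and, more generally, for the fields generated by numbers
with predictable digits: `x` cannot be in the field generated by numbers with good predictors in the
bases `a_i` and in the field generated by numbers with good predictors in the bases `b_j`, if the
subgroups of `ℚˣ` generated by the `a_i` and by the `b_j` have trivial intersection. For instance, of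
the digits of `y` and of `x - y` in base `2` and of `z` and of `x / z` in base `10` (with arbitrary
real numbers `y`, `z ≠ 0`) one sequence is unpredictable.

The starting result `TwoBasePredictors` is the case of one number in each of two COPRIME bases, with
at most `M ^ θ` states, `θ < 1`. (The bases `2` and `10` are not coprime.)

Proof. Otherwise `x` would belong, along a sequence of scales, to the fields of represented numbers
of the starting files `Pool.Agent.TH796.AL` (subspace theorem with moving forms), for two subspaces
of characters with trivial intersection, and `x` would be a Liouville number. The representation of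
numbers with predicted digits is proved with the terms computed in the starting files
`Pool.Agent.R473.TB`.
-/

namespace Pool.Agent.Results.MP_c9a594_an.IndependentBasePredictors

open Pool.Agent.Run7.h103.PF

/-- the subgroup of the multiplicative group of `ℚ` generated by `A` -/
def group (A : Set ℕ) : Subgroup ℚˣ := Subgroup.closure {u | ∃ b ∈ A, ((u : ℚˣ) : ℚ) = b}

/-- `π` is not a Liouville number (as in the starting result `TwoBasePredictors`) -/
theorem pi_not_liouville : ¬ Liouville Real.pi := by
  intro hl
  obtain ⟨q0, hq0⟩ := Pool.Agent.H326R2.Pi.main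
  obtain ⟨b, ⟨a, _, h1⟩, h2⟩ := ((hl.frequently_exists_num 7).and_eventually
    (Filter.eventually_ge_atTop (max q0 1))).exists
  have hb1 : 1 ≤ b := (le_max_right _ _).trans h2
  have h3 := hq0 b ((le_max_left _ _).trans h2) a
  have hb : (1 : ℝ) ≤ b := by exact_mod_cast hb1
  have h4 : (1 : ℝ) / (b : ℝ) ^ 7 ≤ (b : ℝ) ^ (-(6.05 : ℝ)) := by
    rw [one_div, ← Real.rpow_natCast, ← Real.rpow_neg (by positivity)]
    exact Real.rpow_le_rpow_of_exponent_le hb (by norm_num)
  linarith

theorem main {κ κ' : Type} [Fintype κ] [Fintype κ'] (a : κ → ℕ) (b : κ' → ℕ) (ha : ∀ i, 2 ≤ a i)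
    (hb : ∀ j, 2 ≤ b j) (hab : group (Set.range a) ⊓ group (Set.range b) = ⊥)
    (C : ℝ) (u : κ → ℕ → ℤ) (v : κ' → ℕ → ℤ) (hu : ∀ i, SimpleWord (a i) C (u i))
    (hv : ∀ j, SimpleWord (b j) C (v j)) (y : κ → ℝ) (z : κ' → ℝ) (x : ℝ) (hx : Irrational x)
    (hl : ¬ Liouville x) (hy : x ∈ Subfield.closure (Set.range y))
    (hz : x ∈ Subfield.closure (Set.range z)) (A : ℝ) :
    ∃ R : ℕ, ∀ M K : ℕ, R * (K + 1) ≤ M →
      (∃ i, Unpredictable (a i) (u i) (y i) M K (A * Real.log (M / (K + 1)))) ∨
      (∃ j, Unpredictable (b j) (v j) (z j) M K (A * Real.log (M / (K + 1)))) := by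
  obtain ⟨R, hR⟩ := two_groups_liouville (ι := κ ⊕ κ') (Sum.elim a b)
    (by rintro (i | i); exacts [ha i, hb i]) (Sum.elim u v) (C := C)
    (by rintro (i | i); exacts [simple_of (hu i), simple_of (hv i)]) (Sum.elim y z) A hx hl
    (Set.range Sum.inl) (Set.range Sum.inr) (by
      rw [← Set.range_comp, ← Set.range_comp, Sum.elim_comp_inl, Sum.elim_comp_inr]
      exact hab) (by
      rw [← Set.range_comp, Sum.elim_comp_inl]
      exact hy) (by
      rw [← Set.range_comp, Sum.elim_comp_inr]
      exact hz)
  refine ⟨R, fun M K hMK => ?_⟩
  obtain ⟨i | j, h⟩ := hR M K hMK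
  · exact Or.inl ⟨i, unpredictable_of h⟩
  · exact Or.inr ⟨j, unpredictable_of h⟩

/-- (1) Let `a_i` and `b_j` be finitely many bases, such that the subgroup of `ℚˣ` generated by the
`a_i` and the subgroup generated by the `b_j` have trivial intersection; let `u_i` and `v_j` be words
of linear block complexity over `{0, ..., a_i - 1}` and `{0, ..., b_j - 1}`, and let `y_i` and `z_j`
be real numbers. Let `x` be an irrational number in the field generated by the `y_i` and in the field
generated by the `z_j`. If `x` is not a Liouville number, then for every `A` there is `R` such that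
for all `M`, `K` with `R (K + 1) ≤ M` one of the `y_i` or one of the `z_j` is such that every
predictor with at most `K` states which reads the differences between its digits (in base `a_i` or
`b_j`) and the letters of `u_i` or `v_j` makes more than `A log (M / (K + 1))` wrong predictions among
the first `M` places.

(2) In particular this is so for the digits of `x` in two multiplicatively independent bases, for
every irrational number `x` which is not a Liouville number.

(3) In particular this is so for the digits of `π` in two multiplicatively independent bases. -/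
theorem result :
    (∀ (κ κ' : Type) [Fintype κ] [Fintype κ'] (a : κ → ℕ) (b : κ' → ℕ), (∀ i, 2 ≤ a i) →
      (∀ j, 2 ≤ b j) → group (Set.range a) ⊓ group (Set.range b) = ⊥ →
      ∀ (C : ℝ) (u : κ → ℕ → ℤ) (v : κ' → ℕ → ℤ), (∀ i, SimpleWord (a i) C (u i)) →
      (∀ j, SimpleWord (b j) C (v j)) → ∀ (y : κ → ℝ) (z : κ' → ℝ) (x : ℝ), Irrational x →
      ¬ Liouville x → x ∈ Subfield.closure (Set.range y) → x ∈ Subfield.closure (Set.range z) →
      ∀ A : ℝ, ∃ R : ℕ, ∀ M K : ℕ, R * (K + 1) ≤ M →
        (∃ i, Unpredictable (a i) (u i) (y i) M K (A * Real.log (M / (K + 1)))) ∨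
        (∃ j, Unpredictable (b j) (v j) (z j) M K (A * Real.log (M / (K + 1))))) ∧
    (∀ a b : ℕ, 2 ≤ a → 2 ≤ b → Independent a b → ∀ (C : ℝ) (u v : ℕ → ℤ), SimpleWord a C u →
      SimpleWord b C v → ∀ x : ℝ, Irrational x → ¬ Liouville x →
      ∀ A : ℝ, ∃ R : ℕ, ∀ M K : ℕ, R * (K + 1) ≤ M →
        Unpredictable a u x M K (A * Real.log (M / (K + 1))) ∨
        Unpredictable b v x M K (A * Real.log (M / (K + 1)))) ∧
    (∀ a b : ℕ, 2 ≤ a → 2 ≤ b → Independent a b → ∀ (C : ℝ) (u v : ℕ → ℤ), SimpleWord a C u →
      SimpleWord b C v → ∀ A : ℝ, ∃ R : ℕ, ∀ M K : ℕ, R * (K + 1) ≤ M →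
        Unpredictable a u Real.pi M K (A * Real.log (M / (K + 1))) ∨
        Unpredictable b v Real.pi M K (A * Real.log (M / (K + 1)))) := by
  have part2 : ∀ a b : ℕ, 2 ≤ a → 2 ≤ b → Independent a b → ∀ (C : ℝ) (u v : ℕ → ℤ),
      SimpleWord a C u → SimpleWord b C v → ∀ x : ℝ, Irrational x → ¬ Liouville x →
      ∀ A : ℝ, ∃ R : ℕ, ∀ M K : ℕ, R * (K + 1) ≤ M →
        Unpredictable a u x M K (A * Real.log (M / (K + 1))) ∨
        Unpredictable b v x M K (A * Real.log (M / (K + 1))) := by
    intro a b ha hb hab C u v hu hv x hx hl A
    obtain ⟨R, hR⟩ := main (κ := Unit) (κ' := Unit) (fun _ => a) (fun _ => b) (fun _ => ha)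
      (fun _ => hb) (by
        rw [Set.range_const, Set.range_const]
        exact Pool.Agent.TH796.AL.Ai.group_inf ha hb hab) C (fun _ => u) (fun _ => v)
      (fun _ => hu) (fun _ => hv) (fun _ => x) (fun _ => x) x hx hl
      (Subfield.subset_closure ⟨(), rfl⟩) (Subfield.subset_closure ⟨(), rfl⟩) A
    refine ⟨R, fun M K hMK => ?_⟩
    rcases hR M K hMK with ⟨_, h⟩ | ⟨_, h⟩
    · exact Or.inl h
    · exact Or.inr h
  exact ⟨fun κ κ' _ _ a b ha hb hab C u v hu hv y z x hx hl hy hz A =>
    main a b ha hb hab C u v hu hv y z x hx hl hy hz A, part2,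
    fun a b ha hb hab C u v hu hv A =>
      part2 a b ha hb hab C u v hu hv Real.pi irrational_pi pi_not_liouville A⟩

end Pool.Agent.Results.MP_c9a594_an.IndependentBasePredictors
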